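import Pool.Agent.H92.EQ.TF1

/-!
# Row A3: `wedge` and `mixD`
-/

set_option autoImplicit false

namespace Pool.Agent.H60.EQD

open scoped BigOperators ComplexConjugate
open Pool.Agent.H92.EQ

variable {ι X Y : Type} [Fintype ι] [DecidableEq ι] [Fintype X] [DecidableEq X] [Fintype Y]
  [DecidableEq Y]

/-- reindexing by permutations of the source -/
theorem perm_sum (σ σ' : Equiv.Perm Y) (Φ : (Y ≃ ι) → (Y ≃ ι) → ℂ) :
    ∑ e : Y ≃ ι, ∑ e' : Y ≃ ι, ((Equiv.Perm.sign (e.trans e'.symm) : ℤ) : ℂ) *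
      Φ (σ.trans e) (σ'.trans e') =
    ((Equiv.Perm.sign σ : ℤ) : ℂ) * ((Equiv.Perm.sign σ' : ℤ) : ℂ) *
      ∑ f : Y ≃ ι, ∑ f' : Y ≃ ι, ((Equiv.Perm.sign (f.trans f'.symm) : ℤ) : ℂ) * Φ f f' := by
  have h1 : ∀ e e' : Y ≃ ι, ((Equiv.Perm.sign (e.trans e'.symm) : ℤ) : ℂ) =
      ((Equiv.Perm.sign σ : ℤ) : ℂ) * ((Equiv.Perm.sign σ' : ℤ) : ℂ) *
        ((Equiv.Perm.sign ((σ.trans e).trans (σ'.trans e').symm) : ℤ) : ℂ) := by
    intro e e'
    have h2 : ((σ.trans e).trans (σ'.trans e').symm : Equiv.Perm Y) =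
        (σ.trans (e.trans e'.symm : Equiv.Perm Y)).trans σ'.symm := by
      ext x
      rfl
    rw [h2, Equiv.Perm.sign_trans, Equiv.Perm.sign_trans, Equiv.Perm.sign_symm]
    have h3 : ∀ τ : Equiv.Perm Y, ((Equiv.Perm.sign τ : ℤ) : ℂ) * ((Equiv.Perm.sign τ : ℤ) : ℂ) =
        1 := by
      intro τ
      rcases Int.units_eq_one_or (Equiv.Perm.sign τ) with h | h <;> rw [h] <;> norm_num
    push_cast
    linear_combination (-((Equiv.Perm.sign (e.trans e'.symm) : ℤ) : ℂ)) * (h3 σ) -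
      (((Equiv.Perm.sign (e.trans e'.symm) : ℤ) : ℂ) * ((Equiv.Perm.sign σ : ℤ) : ℂ) *
        ((Equiv.Perm.sign σ : ℤ) : ℂ)) * (h3 σ')
  rw [Finset.mul_sum]
  refine Fintype.sum_equiv (Equiv.equivCongr σ.symm (Equiv.refl ι)) _ _ fun e => ?_
  rw [Finset.mul_sum]
  refine Fintype.sum_equiv (Equiv.equivCongr σ'.symm (Equiv.refl ι)) _ _ fun e' => ?_
  rw [h1 e e', mul_assoc]
  rfl

/-- transport of the source -/
theorem trans_sum (θ : X ≃ Y) (Φ : (X ≃ ι) → (X ≃ ι) → ℂ) :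
    ∑ e : Y ≃ ι, ∑ e' : Y ≃ ι, ((Equiv.Perm.sign (e.trans e'.symm) : ℤ) : ℂ) *
      Φ (θ.trans e) (θ.trans e') =
    ∑ f : X ≃ ι, ∑ f' : X ≃ ι, ((Equiv.Perm.sign (f.trans f'.symm) : ℤ) : ℂ) * Φ f f' := by
  refine Fintype.sum_equiv (Equiv.equivCongr θ.symm (Equiv.refl ι)) _ _ fun e => ?_
  refine Fintype.sum_equiv (Equiv.equivCongr θ.symm (Equiv.refl ι)) _ _ fun e' => ?_
  have h1 : Equiv.Perm.sign (e.trans e'.symm) =
      Equiv.Perm.sign (((θ.trans e).trans (θ.trans e').symm : Equiv.Perm X)) := by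
    have h2 : ((θ.trans e).trans (θ.trans e').symm : Equiv.Perm X) =
        (θ.trans (e.trans e'.symm)).trans θ.symm := by
      ext x
      rfl
    rw [h2, Equiv.Perm.sign_trans_trans_symm]
  rw [h1]
  rfl

/-- the last slot of the form moves to the first matrix -/
def th (p m : ℕ) : Fin p ⊕ Fin (m + 1) ≃ Fin (p + 1) ⊕ Fin m where
  toFun := Sum.elim (fun i => Sum.inl i.succ) (Fin.cons (Sum.inl 0) fun j => Sum.inr j)
  invFun := Sum.elim (Fin.cons (Sum.inr 0) fun i => Sum.inl i) (fun j => Sum.inr j.succ)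
  left_inv := by
    rintro (i | j)
    · rfl
    · refine Fin.cases ?_ (fun j => ?_) j <;> rfl
  right_inv := by
    rintro (i | j)
    · refine Fin.cases ?_ (fun j => ?_) i <;> rfl
    · rfl

theorem sum4 {E B : Type} [Fintype E] [Fintype B] (G : B → B → E → E → ℂ) :
    ∑ e, ∑ e', ∑ a, ∑ b, G a b e e' = ∑ a, ∑ b, ∑ e, ∑ e', G a b e e' := by
  calc ∑ e, ∑ e', ∑ a, ∑ b, G a b e e' = ∑ e, ∑ a, ∑ e', ∑ b, G a b e e' :=
        Finset.sum_congr rfl fun e _ => Finset.sum_comm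
    _ = ∑ a, ∑ e, ∑ e', ∑ b, G a b e e' := Finset.sum_comm
    _ = ∑ a, ∑ e, ∑ b, ∑ e', G a b e e' :=
        Finset.sum_congr rfl fun a _ => Finset.sum_congr rfl fun e _ => Finset.sum_comm
    _ = ∑ a, ∑ b, ∑ e, ∑ e', G a b e e' := Finset.sum_congr rfl fun a _ => Finset.sum_comm

/-- the cycle which moves `0` to `a` -/
def sg (p m : ℕ) (a : Fin (p + 1)) : Equiv.Perm (Fin (p + 1) ⊕ Fin m) :=
  Equiv.Perm.sumCongr a.cycleRange.symm 1

theorem sign_sg (p m : ℕ) (a : Fin (p + 1)) :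
    ((Equiv.Perm.sign (sg p m a) : ℤ) : ℂ) = (-1) ^ (a : ℕ) := by
  unfold sg
  rw [Equiv.Perm.sign_sumCongr, Equiv.Perm.sign_symm, Fin.sign_cycleRange, Equiv.Perm.sign_one,
    mul_one]
  push_cast
  rfl

theorem pf_A3 : T_A3 := by
  intro ι _ _ p m S A H
  obtain ⟨Ψ, hΨ⟩ : ∃ Ψ : ((Fin (p + 1) ⊕ Fin m) ≃ ι) → ((Fin (p + 1) ⊕ Fin m) ≃ ι) → ℂ,
    Ψ = fun f f' => S (fun i => f (Sum.inl i.succ)) (fun i => f' (Sum.inl i.succ)) *
      A (f (Sum.inl 0)) (f' (Sum.inl 0)) * ∏ j, H j (f (Sum.inr j)) (f' (Sum.inr j)) := ⟨_, rfl⟩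
  obtain ⟨M, hM⟩ : ∃ M : ℂ, M = ∑ f : (Fin (p + 1) ⊕ Fin m) ≃ ι,
    ∑ f' : (Fin (p + 1) ⊕ Fin m) ≃ ι,
      ((Equiv.Perm.sign (f.trans f'.symm) : ℤ) : ℂ) * Ψ f f' := ⟨_, rfl⟩
  -- the right hand side
  have hR : mixD S (Fin.cons (α := fun _ => Matrix ι ι ℂ) A H) = M := by
    rw [hM]
    unfold mixD
    rw [← trans_sum (th p m).symm]
    refine Finset.sum_congr rfl fun e _ => Finset.sum_congr rfl fun e' _ => ?_
    have h1 : Ψ ((th p m).symm.trans e) ((th p m).symm.trans e') =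
        S (fun i => e (Sum.inl i)) (fun i => e' (Sum.inl i)) *
          A (e (Sum.inr 0)) (e' (Sum.inr 0)) *
          ∏ j : Fin m, H j (e (Sum.inr j.succ)) (e' (Sum.inr j.succ)) := by
      rw [hΨ]
      rfl
    rw [h1, Fin.prod_univ_succ, Fin.cons_zero]
    simp only [Fin.cons_succ]
    ring
  -- one pair
  have key : ∀ a b : Fin (p + 1), ∑ e : (Fin (p + 1) ⊕ Fin m) ≃ ι,
      ∑ e' : (Fin (p + 1) ⊕ Fin m) ≃ ι,
      ((Equiv.Perm.sign (e.trans e'.symm) : ℤ) : ℂ) *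
        Ψ ((sg p m a).trans e) ((sg p m b).trans e') = (-1) ^ (a : ℕ) * (-1) ^ (b : ℕ) * M := by
    intro a b
    rw [perm_sum, sign_sg, sign_sg, hM]
  have hval : ∀ (a b : Fin (p + 1)) (e e' : (Fin (p + 1) ⊕ Fin m) ≃ ι),
      Ψ ((sg p m a).trans e) ((sg p m b).trans e') =
        S ((fun i => e (Sum.inl i)) ∘ a.succAbove) ((fun i => e' (Sum.inl i)) ∘ b.succAbove) *
          A (e (Sum.inl a)) (e' (Sum.inl b)) * ∏ j, H j (e (Sum.inr j)) (e' (Sum.inr j)) := by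
    intro a b e e'
    have h1 : ∀ (a : Fin (p + 1)) (e : (Fin (p + 1) ⊕ Fin m) ≃ ι) (i : Fin p),
        ((sg p m a).trans e) (Sum.inl i.succ) = e (Sum.inl (a.succAbove i)) := by
      intro a e i
      show e (Sum.inl (a.cycleRange.symm i.succ)) = _
      rw [Fin.cycleRange_symm_succ]
    have h2 : ∀ (a : Fin (p + 1)) (e : (Fin (p + 1) ⊕ Fin m) ≃ ι),
        ((sg p m a).trans e) (Sum.inl 0) = e (Sum.inl a) := by
      intro a e
      show e (Sum.inl (a.cycleRange.symm 0)) = _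
      rw [Fin.cycleRange_symm_zero]
    rw [hΨ]
    simp only [h1, h2]
    rfl
  rw [hR]
  obtain ⟨c, hc⟩ : ∃ c : ℂ, c = ((p + 1 : ℂ) ^ 2)⁻¹ := ⟨_, rfl⟩
  have hL : mixD (wedge S A) H = ∑ e : (Fin (p + 1) ⊕ Fin m) ≃ ι,
      ∑ e' : (Fin (p + 1) ⊕ Fin m) ≃ ι, ∑ a : Fin (p + 1), ∑ b : Fin (p + 1),
      c * ((-1) ^ ((a : ℕ) + (b : ℕ)) * (((Equiv.Perm.sign (e.trans e'.symm) : ℤ) : ℂ) *
        Ψ ((sg p m a).trans e) ((sg p m b).trans e'))) := by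
    unfold mixD wedge
    refine Finset.sum_congr rfl fun e _ => Finset.sum_congr rfl fun e' _ => ?_
    rw [← hc, Finset.mul_sum, Finset.mul_sum, Finset.sum_mul]
    refine Finset.sum_congr rfl fun a _ => ?_
    rw [Finset.mul_sum, Finset.mul_sum, Finset.sum_mul]
    refine Finset.sum_congr rfl fun b _ => ?_
    rw [hval]
    ring
  rw [hL, sum4]
  have hab : ∀ a b : Fin (p + 1), ∑ e : (Fin (p + 1) ⊕ Fin m) ≃ ι,
      ∑ e' : (Fin (p + 1) ⊕ Fin m) ≃ ι,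
      c * ((-1) ^ ((a : ℕ) + (b : ℕ)) * (((Equiv.Perm.sign (e.trans e'.symm) : ℤ) : ℂ) *
        Ψ ((sg p m a).trans e) ((sg p m b).trans e'))) = c * M := by
    intro a b
    have h1 := key a b
    have h2 : ∀ n : ℕ, ((-1 : ℂ) ^ n) * (-1) ^ n = 1 := fun n => by
      rw [← mul_pow]
      norm_num
    simp only [← Finset.mul_sum]
    rw [h1, pow_add]
    linear_combination c * M * ((-1 : ℂ) ^ (b : ℕ) * (-1) ^ (b : ℕ)) * h2 a + c * M * h2 b
  rw [Finset.sum_congr rfl fun a _ => Finset.sum_congr rfl fun b _ => hab a b, Finset.sum_const,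
    Finset.sum_const, Finset.card_univ, Fintype.card_fin, hc, smul_smul, nsmul_eq_mul]
  have h3 : (p + 1 : ℂ) ≠ 0 := by exact_mod_cast Nat.succ_ne_zero p
  push_cast
  field_simp

end Pool.Agent.H60.EQD
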