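import Pool.Agent.H92.EQ.TF1

/-!
# Row A11: splitting off the coordinate `0`
-/

set_option autoImplicit false

namespace Pool.Agent.H60.EQD

open scoped BigOperators ComplexConjugate
open Pool.Agent.H92.EQ

/-- the first matrix slot as an extra point -/
def th' (p m : ℕ) : Option (Fin p ⊕ Fin m) ≃ Fin p ⊕ Fin (m + 1) where
  toFun := fun x => x.elim (Sum.inr 0) (Sum.elim (fun i => Sum.inl i) fun j => Sum.inr j.succ)
  invFun := Sum.elim (fun i => some (Sum.inl i)) (Fin.cons none fun j => some (Sum.inr j))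
  left_inv := by
    rintro (_ | (i | j)) <;> rfl
  right_inv := by
    rintro (i | j)
    · rfl
    · refine Fin.cases ?_ (fun j => ?_) j <;> rfl

/-- extension by `0` to `0` -/
def ext0 {N p m : ℕ} (g : (Fin p ⊕ Fin m) ≃ Fin N) : (Fin p ⊕ Fin (m + 1)) ≃ Fin (N + 1) :=
  ((th' p m).symm.trans (Equiv.optionCongr g)).trans (finSuccEquiv N).symm

theorem ext0_inj {N p m : ℕ} :
    Function.Injective (ext0 : ((Fin p ⊕ Fin m) ≃ Fin N) → _) := by
  intro g g' h
  ext x
  have h1 := congrArg (fun e : (Fin p ⊕ Fin (m + 1)) ≃ Fin (N + 1) => e (th' p m (some x))) h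
  have h2 : ∀ g : (Fin p ⊕ Fin m) ≃ Fin N, ext0 g (th' p m (some x)) = (g x).succ := by
    intro g
    unfold ext0
    rw [Equiv.trans_apply, Equiv.trans_apply, Equiv.symm_apply_apply]
    simp
  simp only [h2] at h1
  rw [Fin.succ_injective _ h1]

theorem ext0_range {N p m : ℕ} (e : (Fin p ⊕ Fin (m + 1)) ≃ Fin (N + 1))
    (he : e (Sum.inr 0) = 0) : ∃ g : (Fin p ⊕ Fin m) ≃ Fin N, ext0 g = e := by
  obtain ⟨e2, he2⟩ : ∃ e2 : Option (Fin p ⊕ Fin m) ≃ Option (Fin N),
    e2 = ((th' p m).trans e).trans (finSuccEquiv N) := ⟨_, rfl⟩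
  have h0 : e2 none = none := by
    rw [he2, Equiv.trans_apply, Equiv.trans_apply]
    show finSuccEquiv N (e (Sum.inr 0)) = none
    rw [he, finSuccEquiv_zero]
  refine ⟨Equiv.removeNone e2, ?_⟩
  have h1 : Equiv.optionCongr (Equiv.removeNone e2) = e2 := by
    apply Equiv.ext
    rintro (_ | x)
    · rw [h0]
      rfl
    · have h2 : e2 (some x) ≠ none := by
        intro h3
        rw [← h0] at h3
        have h4 := e2.injective h3
        exact Option.some_ne_none _ h4
      exact Equiv.removeNone_some e2 (Option.ne_none_iff_exists'.1 h2)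
  unfold ext0
  rw [h1, he2]
  apply Equiv.ext
  intro x
  simp

theorem ext0_sign {N p m : ℕ} (g g' : (Fin p ⊕ Fin m) ≃ Fin N) :
    Equiv.Perm.sign ((ext0 g).trans (ext0 g').symm) = Equiv.Perm.sign (g.trans g'.symm) := by
  have h1 : ((ext0 g).trans (ext0 g').symm : Equiv.Perm (Fin p ⊕ Fin (m + 1))) =
      ((th' p m).symm.trans (Equiv.optionCongr (g.trans g'.symm : Equiv.Perm _))).trans
        (th' p m) := by
    apply Equiv.ext
    intro x
    unfold ext0
    simp [Equiv.optionCongr]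
  rw [h1, Equiv.Perm.sign_symm_trans_trans, Equiv.optionCongr_sign]

theorem pf_A11 : T_A11 := by
  intro N p m S H
  unfold mixD
  symm
  have hv : ∀ g : (Fin p ⊕ Fin m) ≃ Fin N, ext0 g (Sum.inr 0) = 0 := by
    intro g
    rfl
  have hv1 : ∀ (g : (Fin p ⊕ Fin m) ≃ Fin N) (i : Fin p), ext0 g (Sum.inl i) =
      (g (Sum.inl i)).succ := by
    intro g i
    rfl
  have hv2 : ∀ (g : (Fin p ⊕ Fin m) ≃ Fin N) (j : Fin m), ext0 g (Sum.inr j.succ) =
      (g (Sum.inr j)).succ := by
    intro g j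
    rfl
  have hz : ∀ e e' : (Fin p ⊕ Fin (m + 1)) ≃ Fin (N + 1), e (Sum.inr 0) ≠ 0 ∨
      e' (Sum.inr 0) ≠ 0 → ((Equiv.Perm.sign (e.trans e'.symm) : ℤ) : ℂ) *
      S (fun i => e (Sum.inl i)) (fun i => e' (Sum.inl i)) *
      ∏ j, (Fin.cons (α := fun _ => Matrix (Fin (N + 1)) (Fin (N + 1)) ℂ)
        (Matrix.single 0 0 1) H : Fin (m + 1) → Matrix (Fin (N + 1)) (Fin (N + 1)) ℂ) j
        (e (Sum.inr j)) (e' (Sum.inr j)) = 0 := by
    intro e e' h
    rw [Fin.prod_univ_succ, Fin.cons_zero]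
    have h1 : (Matrix.single 0 0 1 : Matrix (Fin (N + 1)) (Fin (N + 1)) ℂ)
        (e (Sum.inr 0)) (e' (Sum.inr 0)) = 0 := by
      rw [Matrix.single_apply, if_neg]
      rintro ⟨h2, h3⟩
      rcases h with h | h
      · exact h h2.symm
      · exact h h3.symm
    rw [h1, zero_mul, mul_zero]
  refine Fintype.sum_of_injective ext0 ext0_inj _ _ ?_ ?_
  · intro e he
    refine Finset.sum_eq_zero fun e' _ => hz e e' (Or.inl fun h => he ?_)
    exact ext0_range e h
  · intro g
    refine Fintype.sum_of_injective ext0 ext0_inj _ _ ?_ ?_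
    · intro e' he'
      exact hz _ e' (Or.inr fun h => he' (ext0_range e' h))
    · intro g'
      rw [ext0_sign, Fin.prod_univ_succ, Fin.cons_zero]
      simp only [hv, hv1, hv2, Fin.cons_succ, Matrix.submatrix_apply]
      rw [Matrix.single_apply, if_pos ⟨rfl, rfl⟩, one_mul]

end Pool.Agent.H60.EQD
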