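import Pool.Agent.H92.EQ.TL

/-!
# Row ID: invariant tensors are unique up to a factor
-/

set_option autoImplicit false

namespace Pool.Agent.H60.EQD

open scoped BigOperators ComplexConjugate
open Pool.Agent.H92.EQ

variable {N p : ℕ}

/-- two injective maps which avoid `k` differ by a permutation which fixes `k` -/
theorem exists_perm (k : Fin N) (I I' : Fin p → Fin N) (hI : Function.Injective I)
    (hI' : Function.Injective I') (hk : ∀ l, I l ≠ k) (hk' : ∀ l, I' l ≠ k) :
    ∃ τ : Equiv.Perm (Fin N), τ k = k ∧ ∀ l, τ (I l) = I' l := by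
  have hinj : ∀ {I : Fin p → Fin N}, Function.Injective I → (∀ l, I l ≠ k) →
      Function.Injective (fun x : Option (Fin p) => x.elim k I) := by
    intro I hI hk x y hxy
    cases x with
    | none =>
      cases y with
      | none => rfl
      | some y => exact absurd hxy.symm (hk y)
    | some x =>
      cases y with
      | none => exact absurd hxy (hk x)
      | some y => rw [hI hxy]
  let e1 := Equiv.ofInjective _ (hinj hI hk)
  let e2 := Equiv.ofInjective _ (hinj hI' hk')
  classical
  let e : {x // x ∈ Set.range (fun x : Option (Fin p) => x.elim k I)} ≃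
    {x // x ∈ Set.range (fun x : Option (Fin p) => x.elim k I')} := e1.symm.trans e2
  have hval : ∀ x : Option (Fin p), e.extendSubtype (x.elim k I) = x.elim k I' := by
    intro x
    have hm : x.elim k I ∈ Set.range (fun x : Option (Fin p) => x.elim k I) := ⟨x, rfl⟩
    rw [Equiv.extendSubtype_apply_of_mem e _ hm]
    have h1 : e1.symm ⟨x.elim k I, hm⟩ = x := by
      rw [Equiv.symm_apply_eq]
      rfl
    show ((e2 (e1.symm ⟨x.elim k I, hm⟩) : _) : Fin N) = _
    rw [h1]
    rfl
  exact ⟨e.extendSubtype, hval none, fun l => hval (some l)⟩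

theorem sym_inj {k : Fin N} {W : (Fin p → Fin N) → (Fin p → Fin N) → ℂ} (hW : SymK k W)
    {I J : Fin p → Fin N} (h : W I J ≠ 0) : Function.Injective I ∧ Function.Injective J ∧
      (∀ l, I l ≠ k) ∧ ∀ l, J l ≠ k := by
  refine ⟨?_, ?_, ?_, ?_⟩
  · intro l l' hll
    by_contra hne
    have h1 := hW.altL (Equiv.swap l l') I J
    have h2 : I ∘ Equiv.swap l l' = I := by
      funext x
      show I (Equiv.swap l l' x) = I x
      rcases eq_or_ne x l with rfl | h3
      · rw [Equiv.swap_apply_left, hll]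
      · rcases eq_or_ne x l' with rfl | h4
        · rw [Equiv.swap_apply_right, hll]
        · rw [Equiv.swap_apply_of_ne_of_ne h3 h4]
    rw [h2, Equiv.Perm.sign_swap hne] at h1
    apply h
    push_cast at h1
    linear_combination (1 / 2 : ℂ) * h1
  · intro l l' hll
    by_contra hne
    have h1 := hW.altR (Equiv.swap l l') I J
    have h2 : J ∘ Equiv.swap l l' = J := by
      funext x
      show J (Equiv.swap l l' x) = J x
      rcases eq_or_ne x l with rfl | h3
      · rw [Equiv.swap_apply_left, hll]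
      · rcases eq_or_ne x l' with rfl | h4
        · rw [Equiv.swap_apply_right, hll]
        · rw [Equiv.swap_apply_of_ne_of_ne h3 h4]
    rw [h2, Equiv.Perm.sign_swap hne] at h1
    apply h
    push_cast at h1
    linear_combination (1 / 2 : ℂ) * h1
  · intro l hl
    exact h (hW.kil I J (Or.inl ⟨l, hl⟩))
  · intro l hl
    exact h (hW.kil I J (Or.inr ⟨l, hl⟩))

theorem prod_flip {I : Fin p → Fin N} (hI : Function.Injective I) (l : Fin p) :
    ∏ x, (if I x = I l then (-1 : ℂ) else 1) = -1 := by
  have h1 : ∀ x, (if I x = I l then (-1 : ℂ) else 1) = if x = l then -1 else 1 := fun x =>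
    if_congr hI.eq_iff rfl rfl
  rw [Finset.prod_congr rfl fun x _ => h1 x, Finset.prod_ite_eq' Finset.univ l,
    if_pos (Finset.mem_univ l)]

theorem sym_perm {k : Fin N} {W : (Fin p → Fin N) → (Fin p → Fin N) → ℂ} (hW : SymK k W)
    {I J : Fin p → Fin N} (h : W I J ≠ 0) : ∃ π : Equiv.Perm (Fin p), J = I ∘ π := by
  obtain ⟨hI, hJ, -, -⟩ := sym_inj hW h
  have hex : ∀ l, ∃ m, I m = J l := by
    intro l
    by_contra hcon
    push Not at hcon
    have h1 := hW.diag (fun i => if i = J l then -1 else 1) (fun i => by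
      split_ifs <;> simp) I J
    have h2 : ∏ x, (if I x = J l then (-1 : ℂ) else 1) = 1 :=
      Finset.prod_eq_one fun x _ => if_neg (hcon x)
    have h3 : ∏ x, conj (if J x = J l then (-1 : ℂ) else 1) = -1 := by
      have h4 : ∀ x, conj (if J x = J l then (-1 : ℂ) else 1) =
          if J x = J l then (-1 : ℂ) else 1 := by
        intro x
        split_ifs <;> simp
      rw [Finset.prod_congr rfl fun x _ => h4 x, prod_flip hJ l]
    rw [h2, h3] at h1
    apply h
    linear_combination (-1 / 2 : ℂ) * h1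
  choose m hm using hex
  have hinj : Function.Injective m := by
    intro x y hxy
    apply hJ
    rw [← hm x, ← hm y, hxy]
  refine ⟨Equiv.ofBijective m (Finite.injective_iff_bijective.1 hinj), ?_⟩
  funext l
  exact (hm l).symm

theorem sym_val {k : Fin N} {W : (Fin p → Fin N) → (Fin p → Fin N) → ℂ} (hW : SymK k W)
    (I0 I : Fin p → Fin N) (hI0 : Function.Injective I0) (hk0 : ∀ l, I0 l ≠ k)
    (hI : Function.Injective I) (hk : ∀ l, I l ≠ k) (π : Equiv.Perm (Fin p)) :
    W I (I ∘ π) = ((Equiv.Perm.sign π : ℤ) : ℂ) * W I0 I0 := by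
  rw [hW.altR]
  obtain ⟨τ, h1, h2⟩ := exists_perm k I0 I hI0 hI hk0 hk
  have h3 := hW.perm τ h1 I0 I0
  have h4 : (fun l => τ (I0 l)) = I := funext h2
  rw [h4] at h3
  rw [h3]

theorem pf_ID : T_ID := by
  intro N p k W W' hW hW' hne
  obtain ⟨I0, J0, h0⟩ : ∃ I0 J0, W' I0 J0 ≠ 0 := by
    by_contra hcon
    push Not at hcon
    exact hne (funext fun I => funext fun J => hcon I J)
  obtain ⟨hI0, -, hk0, -⟩ := sym_inj hW' h0
  obtain ⟨π0, hπ0⟩ := sym_perm hW' h0
  have h00 : W' I0 I0 ≠ 0 := by
    intro h1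
    apply h0
    rw [hπ0, hW'.altR, h1, mul_zero]
  refine ⟨W I0 I0 / W' I0 I0, fun I J => ?_⟩
  by_cases hex : Function.Injective I ∧ (∀ l, I l ≠ k) ∧ ∃ π : Equiv.Perm (Fin p), J = I ∘ π
  · obtain ⟨hI, hk, π, rfl⟩ := hex
    rw [sym_val hW I0 I hI0 hk0 hI hk π, sym_val hW' I0 I hI0 hk0 hI hk π]
    field_simp
  · have hz : ∀ {V : (Fin p → Fin N) → (Fin p → Fin N) → ℂ}, SymK k V → V I J = 0 := by
      intro V hV
      by_contra h1
      obtain ⟨a1, -, a2, -⟩ := sym_inj hV h1
      exact hex ⟨a1, a2, sym_perm hV h1⟩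
    rw [hz hW, hz hW', mul_zero]

end Pool.Agent.H60.EQD
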