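import Pool.Agent.H92.EQ.TK

/-!
# Row KM: reduction to the non-critical part
-/

set_option autoImplicit false

namespace Pool.Agent.H60.EQD

open scoped BigOperators ComplexConjugate ContDiff ComplexOrder
open MeasureTheory Pool.Agent.H92.EQ

theorem km_ae {N : ℕ} (hN : 0 < N) : ∀ᵐ z : Fin N → ℂ, z ≠ 0 := by
  have : Nonempty (Fin N) := ⟨⟨0, hN⟩⟩
  exact Measure.ae_ne _ 0

theorem km_mono {N : ℕ} (hN : 0 < N) (f g : (Fin N → ℂ) → ℝ)
    (hf : IntegrableOn f {z : Fin N → ℂ | 0 ≤ ell z ∧ ell z < 1})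
    (hg : IntegrableOn g {z : Fin N → ℂ | 0 ≤ ell z ∧ ell z < 1})
    (h : ∀ z, z ≠ 0 → f z ≤ g z) : Iint f ≤ Iint g := by
  refine setIntegral_mono_ae hf hg ?_
  filter_upwards [km_ae hN] with z hz
  exact h z hz

theorem km_core {N p q : ℕ} (hP1 : T_P1) (hP3 : T_P3) (hL3 : T_L3) (T : Form (Fin N) p)
    (κ φ : (Fin N → ℂ) → ℝ) (u : Fin q → (Fin N → ℂ) → ℝ) (B C : ℝ)
    (hN : p + q + 1 = N) (hT : ProjForm T) (hκ : Hom0 κ) (hφ : Hom0 φ)
    (hu : ∀ j, Pot (u j)) (hk : ∀ z, z ≠ 0 → 0 ≤ κ z ∧ κ z ≤ 1)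
    (hf : ∀ z, z ≠ 0 → 0 ≤ φ z ∧ φ z ≤ B) (hC : 0 < C)
    (hQ : ∀ z, z ≠ 0 → Q T u z ≤ C * Q T (fun _ : Fin q => ell) z) :
    pair φ T u ≤ pair (fun z => κ z * φ z) T u +
      B * C * pair (fun z => 1 - κ z) T (fun _ : Fin q => ell) ∧
    pair (fun z => κ z * φ z) T u ≤ pair φ T u ∧
    pair (fun z => 1 - κ z) T (fun _ : Fin q => ell) =
      mass q T - pair κ T (fun _ : Fin q => ell) := by
  have hN0 : 0 < N := by omega
  have hLu : ∀ j, LH ((fun _ => (1 : ℝ)) j) (u j) := fun j =>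
    ⟨(hu j).smooth, fun l z hl hz => by simpa using (hu j).loghom l z hl hz⟩
  have hell : Pot (ell : (Fin N → ℂ) → ℝ) := (hL3 N).1
  have hLe : ∀ j : Fin q, LH ((fun _ => (1 : ℝ)) j) ((fun _ : Fin q => ell) j :
      (Fin N → ℂ) → ℝ) := fun j =>
    ⟨hell.smooth, fun l z hl hz => by simpa using hell.loghom l z hl hz⟩
  have I1 := (hP1 N p q T u (fun _ => 1) hN hT hLu).2
  have I2 := (hP1 N p q T (fun _ => ell) (fun _ => 1) hN hT hLe).2
  have hκc : ContinuousOn κ {0}ᶜ := hκ.smooth.continuousOn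
  have hφc : ContinuousOn φ {0}ᶜ := hφ.smooth.continuousOn
  have a1 := I1 φ hφc
  have a2 := I1 (fun z => κ z * φ z) (hκc.mul hφc)
  have a3 := I2 (fun z => 1 - κ z) (continuousOn_const.sub hκc)
  have a4 := I2 (fun _ => 1) continuousOn_const
  have a5 := I2 κ hκc
  have hQ0 := (hP3 N p q T u hN hT hu).1
  have hQe := (hP3 N p q T (fun _ => ell) hN hT (fun _ => hell)).1
  refine ⟨?_, ?_, ?_⟩
  · have e1 : pair (fun z => κ z * φ z) T u +
        B * C * pair (fun z => 1 - κ z) T (fun _ : Fin q => ell) =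
        Iint (fun z => (κ z * φ z) * Q T u z +
          B * C * ((1 - κ z) * Q T (fun _ : Fin q => ell) z)) := by
      unfold pair Iint
      rw [integral_add a2 (a3.const_mul _), integral_const_mul]
    rw [e1]
    refine km_mono hN0 _ _ a1 (a2.add (a3.const_mul _)) ?_
    intro z hz
    have b1 := hk z hz
    have b2 := hf z hz
    have b3 := hQ0 z hz
    have b4 := hQe z hz
    have b5 := hQ z hz
    have c1 : φ z * Q T u z ≤ B * (C * Q T (fun _ : Fin q => ell) z) :=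
      mul_le_mul b2.2 b5 b3 (b2.1.trans b2.2)
    have c2 := mul_le_mul_of_nonneg_left c1 (sub_nonneg.2 b1.2)
    have e2 : φ z * Q T u z = (κ z * φ z) * Q T u z + (1 - κ z) * (φ z * Q T u z) := by ring
    rw [e2]
    have e3 : B * C * ((1 - κ z) * Q T (fun _ : Fin q => ell) z) =
        (1 - κ z) * (B * (C * Q T (fun _ : Fin q => ell) z)) := by ring
    rw [e3]
    exact add_le_add le_rfl c2
  · refine km_mono hN0 _ _ a2 a1 ?_
    intro z hz
    have b1 := hk z hz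
    have b2 := hf z hz
    have b3 := hQ0 z hz
    refine mul_le_mul_of_nonneg_right ?_ b3
    exact mul_le_of_le_one_left b2.1 b1.2
  · have e1 : mass q T - pair κ T (fun _ : Fin q => ell) =
        Iint (fun z => 1 * Q T (fun _ : Fin q => ell) z -
          κ z * Q T (fun _ : Fin q => ell) z) := by
      unfold mass pair Iint
      rw [integral_sub a4 a5]
    rw [e1]
    unfold pair
    congr 1
    funext z
    ring

theorem pf_KM (hTN : T_TN) (hP1 : T_P1) (hP2 : T_P2) (hP3 : T_P3) (hP5 : T_P5) (hD5 : T_D5)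
    (hS5 : T_S5) (hL3 : T_L3) : T_KM := by
  intro N p q D Φ S κ φ u B C e A hN hD hΦ hS hκ hφ hu hk hf hC he hQ hA h1 h2
  have hN0 : 0 < N := by omega
  obtain ⟨-, -, t3⟩ := hTN N p q D Φ S φ u B hN hD hΦ hS hφ hu (fun z hz => by
    rw [abs_of_nonneg (hf z hz).1]
    exact (hf z hz).2)
  obtain ⟨hT1, m1⟩ := t3 A hA
  have hT0 := hD5 N p D Φ S hD hΦ hS
  have m0 := (hP5 N p q D S hN hS).1 Φ hD hΦ
  have k1 := km_core hP1 hP3 hL3 (pull (cmp (lin A) Φ) S) κ φ u B C hN hT1 hκ hφ hu hk hf hC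
    (hQ _ hT1)
  have k0 := km_core hP1 hP3 hL3 (pull Φ S) κ φ u B C hN hT0 hκ hφ hu hk hf hC (hQ _ hT0)
  have hB : 0 ≤ B := by
    have h3 := hf (fun _ => 1) (fun h => by
      have h4 := congrFun h ⟨0, hN0⟩
      simp at h4)
    exact h3.1.trans h3.2
  have hBC : 0 ≤ B * C := mul_nonneg hB hC.le
  unfold am at h1 h2 ⊢
  obtain ⟨x1, x2, x3⟩ := k1
  obtain ⟨y1, y2, y3⟩ := k0
  rw [abs_le] at h1 h2 ⊢
  obtain ⟨h11, h12⟩ := h1
  obtain ⟨h21, h22⟩ := h2
  have g1 : B * C * pair (fun z => 1 - κ z) (pull (cmp (lin A) Φ) S) (fun _ : Fin q => ell) ≤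
      B * C * (pair (fun z => 1 - κ z) (pull Φ S) (fun _ : Fin q => ell) + e) := by
    refine mul_le_mul_of_nonneg_left ?_ hBC
    rw [x3, y3, m1, m0]
    linarith
  have g2 : 0 ≤ B * C * e := mul_nonneg hBC he
  constructor
  · nlinarith [x1, x2, y1, y2]
  · nlinarith [x1, x2, y1, y2]

end Pool.Agent.H60.EQD
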