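import Pool.Agent.H94.EQ.L3
import Pool.Agent.H78.EQ.Wir

/-!
# Row L6: bounds by compactness
-/

set_option autoImplicit false

namespace Pool.Agent.H60.EQD

open scoped BigOperators ComplexConjugate ContDiff ComplexOrder
open MeasureTheory Pool.Agent.H92.EQ Pool.Agent.H94.EQ

section

variable {ι : Type} [Fintype ι]

/-- the value of the form `H` on `v` -/
noncomputable def fm (v : ι → ℂ) (H : Matrix ι ι ℂ) : ℂ := ∑ a, ∑ b, v a * H a b * conj (v b)

theorem fm_lin (v : ι → ℂ) (H H' : Matrix ι ι ℂ) (α β : ℂ) :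
    fm v (α • H + β • H') = α * fm v H + β * fm v H' := by
  unfold fm
  rw [Finset.mul_sum, Finset.mul_sum, ← Finset.sum_add_distrib]
  refine Finset.sum_congr rfl fun a _ => ?_
  rw [Finset.mul_sum, Finset.mul_sum, ← Finset.sum_add_distrib]
  refine Finset.sum_congr rfl fun b _ => ?_
  simp only [Matrix.add_apply, Matrix.smul_apply, smul_eq_mul]
  ring

theorem fm_conj (v : ι → ℂ) (H : Matrix ι ι ℂ) (hH : H.IsHermitian) :
    conj (fm v H) = fm v H := by
  unfold fm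
  rw [map_sum]
  simp only [map_sum, map_mul, Complex.conj_conj]
  rw [Finset.sum_comm]
  refine Finset.sum_congr rfl fun a _ => Finset.sum_congr rfl fun b _ => ?_
  have h1 : conj (H b a) = H a b := hH.apply a b
  rw [h1]
  ring

theorem fm_ortho (v z : ι → ℂ) (c : ℂ) (H : Matrix ι ι ℂ) (h1 : MKilL z H) (h2 : MKilR z H) :
    fm (fun a => v a - c * z a) H = fm v H := by
  unfold fm
  have e1 : ∀ a, ∑ b, (v a - c * z a) * H a b * conj (v b - c * z b) =
      (v a - c * z a) * ∑ b, H a b * conj (v b) := by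
    intro a
    have h3 := h2 a
    rw [Finset.mul_sum]
    have h4 : ∀ b, (v a - c * z a) * H a b * conj (v b - c * z b) =
        (v a - c * z a) * (H a b * conj (v b)) -
          (v a - c * z a) * conj c * (conj (z b) * H a b) := by
      intro b
      rw [map_sub, map_mul]
      ring
    rw [Finset.sum_congr rfl fun b _ => h4 b, Finset.sum_sub_distrib, ← Finset.mul_sum (f := fun b => conj (z b) * H a b),
      h3, mul_zero, sub_zero]
  rw [Finset.sum_congr rfl fun a _ => e1 a]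
  have e2 : ∑ a, (v a - c * z a) * ∑ b, H a b * conj (v b) =
      ∑ a, v a * ∑ b, H a b * conj (v b) - c * ∑ b, (∑ a, z a * H a b) * conj (v b) := by
    have e3 : ∑ b, (∑ a, z a * H a b) * conj (v b) = ∑ a, z a * ∑ b, H a b * conj (v b) := by
      simp only [Finset.sum_mul, Finset.mul_sum]
      rw [Finset.sum_comm]
      refine Finset.sum_congr rfl fun a _ => Finset.sum_congr rfl fun b _ => ?_
      ring
    rw [e3, Finset.mul_sum, ← Finset.sum_sub_distrib]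
    refine Finset.sum_congr rfl fun a _ => ?_
    ring
  rw [e2]
  have e4 : ∑ b, (∑ a, z a * H a b) * conj (v b) = 0 :=
    Finset.sum_eq_zero fun b _ => by rw [h1 b, zero_mul]
  rw [e4, mul_zero, sub_zero]
  refine Finset.sum_congr rfl fun a _ => ?_
  rw [Finset.mul_sum]
  refine Finset.sum_congr rfl fun b _ => ?_
  ring

theorem fm_bound (v : ι → ℂ) (H : Matrix ι ι ℂ) (M : ℝ) (hM : 0 ≤ M)
    (h : ∀ a b, ‖H a b‖ ≤ M) : ‖fm v H‖ ≤ M * Fintype.card ι * nsq v := by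
  have h1 : ‖fm v H‖ ≤ ∑ a, ∑ b, ‖v a‖ * M * ‖v b‖ := by
    unfold fm
    refine (norm_sum_le _ _).trans (Finset.sum_le_sum fun a _ => ?_)
    refine (norm_sum_le _ _).trans (Finset.sum_le_sum fun b _ => ?_)
    rw [norm_mul, norm_mul, Complex.norm_conj]
    have := h a b
    gcongr
  have h2 : ∑ a, ∑ b, ‖v a‖ * M * ‖v b‖ = M * (∑ a, ‖v a‖) ^ 2 := by
    rw [sq, Finset.sum_mul_sum, Finset.mul_sum]
    refine Finset.sum_congr rfl fun a _ => ?_
    rw [Finset.mul_sum]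
    refine Finset.sum_congr rfl fun b _ => ?_
    ring
  have h3 : (∑ a, ‖v a‖) ^ 2 ≤ Fintype.card ι * nsq v := by
    have h4 := sq_sum_le_card_mul_sum_sq (s := Finset.univ) (f := fun a => ‖v a‖)
    rw [Finset.card_univ] at h4
    exact h4
  calc ‖fm v H‖ ≤ M * (∑ a, ‖v a‖) ^ 2 := h1.trans (le_of_eq h2)
    _ ≤ M * (Fintype.card ι * nsq v) := mul_le_mul_of_nonneg_left h3 hM
    _ = M * Fintype.card ι * nsq v := by ring

theorem nsq_cast (v : ι → ℂ) : ((nsq v : ℝ) : ℂ) = ∑ a, v a * conj (v a) := by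
  unfold nsq
  push_cast
  refine Finset.sum_congr rfl fun a _ => ?_
  rw [Complex.mul_conj, Complex.normSq_eq_norm_sq]
  push_cast
  rfl

theorem nsq_proj (v z : ι → ℂ) (hz : 0 < nsq z) :
    nsq (fun a => v a - (∑ b, v b * conj (z b)) / (nsq z : ℂ) * z a) =
      nsq v - ‖∑ b, v b * conj (z b)‖ ^ 2 / nsq z := by
  obtain ⟨s, hs⟩ : ∃ s : ℂ, s = ∑ b, v b * conj (z b) := ⟨_, rfl⟩
  rw [← hs]
  have hz' : (nsq z : ℂ) ≠ 0 := by exact_mod_cast hz.ne'
  have hs' : conj s = ∑ b, z b * conj (v b) := by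
    rw [hs, map_sum]
    refine Finset.sum_congr rfl fun b _ => ?_
    rw [map_mul, Complex.conj_conj, mul_comm]
  have key : ((nsq (fun a => v a - s / (nsq z : ℂ) * z a) : ℝ) : ℂ) =
      ((nsq v - ‖s‖ ^ 2 / nsq z : ℝ) : ℂ) := by
    rw [nsq_cast]
    have e1 : ∀ a, (v a - s / (nsq z : ℂ) * z a) * conj (v a - s / (nsq z : ℂ) * z a) =
        v a * conj (v a) - conj s / (nsq z : ℂ) * (v a * conj (z a)) -
          s / (nsq z : ℂ) * (z a * conj (v a)) +
          s / (nsq z : ℂ) * (conj s / (nsq z : ℂ)) * (z a * conj (z a)) := by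
      intro a
      rw [map_sub, map_mul, map_div₀, Complex.conj_ofReal]
      ring
    rw [Finset.sum_congr rfl fun a _ => e1 a, Finset.sum_add_distrib, Finset.sum_sub_distrib,
      Finset.sum_sub_distrib, ← Finset.mul_sum, ← Finset.mul_sum, ← Finset.mul_sum, ← nsq_cast,
      ← nsq_cast, ← hs, ← hs']
    push_cast
    have e2 : ((‖s‖ : ℝ) : ℂ) ^ 2 = s * conj s := by
      rw [Complex.mul_conj, Complex.normSq_eq_norm_sq]
      push_cast
      rfl
    rw [e2]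
    field_simp
    ring
  exact_mod_cast key

theorem psd_of {H H' : Matrix ι ι ℂ} (hH : H.IsHermitian) (hH' : H'.IsHermitian)
    (E : (ι → ℂ) → ℝ) (hE0 : ∀ v, 0 ≤ E v) (hE : ∀ v, fm v H = (E v : ℂ)) (C α β : ℝ)
    (hC : ∀ v, ‖fm v H'‖ ≤ C * E v) (hαβ : |β| * C ≤ α) :
    ((α : ℂ) • H + (β : ℂ) • H').PosSemidef := by
  have hr : ∀ (γ : ℝ) {M : Matrix ι ι ℂ}, M.IsHermitian → ((γ : ℂ) • M).IsHermitian := by
    intro γ M hM
    unfold Matrix.IsHermitian
    rw [Matrix.conjTranspose_smul, hM.eq]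
    congr 1
    exact Complex.conj_ofReal γ
  refine Matrix.PosSemidef.of_dotProduct_mulVec_nonneg ((hr α hH).add (hr β hH')) fun x => ?_
  have e1 : star x ⬝ᵥ (((α : ℂ) • H + (β : ℂ) • H').mulVec x) =
      fm (star x) ((α : ℂ) • H + (β : ℂ) • H') := by
    unfold fm dotProduct Matrix.mulVec dotProduct
    refine Finset.sum_congr rfl fun a _ => ?_
    rw [Finset.mul_sum]
    refine Finset.sum_congr rfl fun b _ => ?_
    have h1 : conj ((star x) b) = x b := Complex.conj_conj _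
    rw [h1]
    ring
  rw [e1, fm_lin, hE]
  have h2 : fm (star x) H' = (((fm (star x) H').re : ℝ) : ℂ) :=
    (Complex.conj_eq_iff_re.1 (fm_conj _ _ hH')).symm
  rw [h2]
  have h3 : |(fm (star x) H').re| ≤ C * E (star x) :=
    (Complex.abs_re_le_norm _).trans (hC _)
  have h4 : |β * (fm (star x) H').re| ≤ α * E (star x) := by
    rw [abs_mul]
    calc |β| * |(fm (star x) H').re| ≤ |β| * (C * E (star x)) :=
          mul_le_mul_of_nonneg_left h3 (abs_nonneg _)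
      _ = |β| * C * E (star x) := by ring
      _ ≤ α * E (star x) := mul_le_mul_of_nonneg_right hαβ (hE0 _)
  have h5 : 0 ≤ α * E (star x) + β * (fm (star x) H').re := by
    have := (abs_le.1 h4).1
    linarith
  exact_mod_cast h5

end

/-- the value of the Hessian of `log |z|` -/
noncomputable def EE {N : ℕ} (z v : Fin N → ℂ) : ℝ :=
  (1 / 2) * (nsq v / nsq z - ‖∑ a, v a * conj (z a)‖ ^ 2 / nsq z ^ 2)

theorem EE_eq {N : ℕ} (z v : Fin N → ℂ) (hz : z ≠ 0) :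
    nsq (fun a => v a - (∑ b, v b * conj (z b)) / (nsq z : ℂ) * z a) = 2 * nsq z * EE z v := by
  have h0 := nsq_pos hz
  rw [nsq_proj v z h0]
  unfold EE
  field_simp

theorem EE_nonneg {N : ℕ} (z v : Fin N → ℂ) (hz : z ≠ 0) : 0 ≤ EE z v := by
  have h0 := nsq_pos hz
  have h1 := EE_eq z v hz
  have h2 : 0 ≤ nsq (fun a => v a - (∑ b, v b * conj (z b)) / (nsq z : ℂ) * z a) := by
    unfold nsq
    exact Finset.sum_nonneg fun _ _ => sq_nonneg _
  rw [h1] at h2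
  by_contra hcon
  push Not at hcon
  nlinarith

theorem gen (hL2 : T_L2) {N : ℕ} (c : ℝ) (u : (Fin N → ℂ) → ℝ) (hu : LH c u) :
    ∃ C : ℝ, 0 < C ∧ ∀ z, z ≠ 0 → ∀ v, ‖fm v (hessR u z)‖ ≤ C * EE z v := by
  have hcont : ∀ a b, ContinuousOn (fun z => hessR u z a b) ({0}ᶜ : Set (Fin N → ℂ)) := by
    intro a b
    have hU : IsOpen ({0}ᶜ : Set (Fin N → ℂ)) := isOpen_compl_singleton
    have h1 : ContDiffOn ℝ ∞ (fun w => (u w : ℂ)) ({0}ᶜ : Set (Fin N → ℂ)) :=
      Complex.ofRealCLM.contDiff.comp_contDiffOn hu.smooth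
    have h2 := (Pool.Agent.H78.EQ.pf_W6 (Fin N) b _ _ hU h1).2
    exact (Pool.Agent.H78.EQ.pf_W6 (Fin N) a _ _ hU h2).1.continuousOn
  have hsph : (Metric.sphere (0 : Fin N → ℂ) 1) ⊆ ({0}ᶜ : Set (Fin N → ℂ)) := by
    intro z hz hz0
    rw [Set.mem_singleton_iff.1 hz0, mem_sphere_zero_iff_norm, norm_zero] at hz
    exact zero_ne_one hz
  choose M hM using fun a b =>
    (isCompact_sphere (0 : Fin N → ℂ) 1).exists_bound_of_continuousOn ((hcont a b).mono hsph)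
  obtain ⟨B, hB⟩ : ∃ B : ℝ, B = ∑ a, ∑ b, |M a b| := ⟨_, rfl⟩
  have hB0 : 0 ≤ B := by
    rw [hB]
    exact Finset.sum_nonneg fun a _ => Finset.sum_nonneg fun b _ => abs_nonneg _
  have hBM : ∀ a b, |M a b| ≤ B := by
    intro a b
    rw [hB]
    refine (Finset.single_le_sum (f := fun b => |M a b|) (fun _ _ => abs_nonneg _)
      (Finset.mem_univ b)).trans ?_
    exact Finset.single_le_sum (f := fun a => ∑ b, |M a b|)
      (fun _ _ => Finset.sum_nonneg fun _ _ => abs_nonneg _) (Finset.mem_univ a)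
  refine ⟨2 * B * N ^ 2 + 1, by positivity, fun z hz v => ?_⟩
  have hr : 0 < ‖z‖ := norm_pos_iff.2 hz
  obtain ⟨-, -, k1, k2, k3⟩ := hL2 N c u hu z hz
  have hl : ((‖z‖⁻¹ : ℝ) : ℂ) ≠ 0 := by exact_mod_cast (inv_pos.2 hr).ne'
  have k4 := (k3 _ hl).2
  have hn1 : ‖((‖z‖⁻¹ : ℝ) : ℂ)‖ = ‖z‖⁻¹ := by
    rw [Complex.norm_real, Real.norm_of_nonneg (inv_pos.2 hr).le]
  rw [hn1] at k4
  have hsp : ((‖z‖⁻¹ : ℝ) : ℂ) • z ∈ Metric.sphere (0 : Fin N → ℂ) 1 := by
    rw [mem_sphere_zero_iff_norm, norm_smul, hn1, inv_mul_cancel₀ hr.ne']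
  have hent : ∀ a b, ‖hessR u z a b‖ ≤ B / ‖z‖ ^ 2 := by
    intro a b
    have h1 := (hM a b _ hsp).trans ((le_abs_self _).trans (hBM a b))
    rw [k4, Matrix.smul_apply, smul_eq_mul, norm_mul, norm_inv, Complex.norm_real,
      Real.norm_of_nonneg (by positivity)] at h1
    rw [le_div_iff₀ (by positivity)]
    calc ‖hessR u z a b‖ * ‖z‖ ^ 2 = ((‖z‖⁻¹) ^ 2)⁻¹ * ‖hessR u z a b‖ := by
          rw [inv_pow, inv_inv]
          ring
      _ ≤ B := h1
  have h2 := fm_bound (fun a => v a - (∑ b, v b * conj (z b)) / (nsq z : ℂ) * z a) (hessR u z)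
    (B / ‖z‖ ^ 2) (by positivity) hent
  rw [fm_ortho v z _ _ k1 k2, EE_eq z v hz, Fintype.card_fin] at h2
  refine h2.trans ?_
  have hE := EE_nonneg z v hz
  have hn : nsq z ≤ N * ‖z‖ ^ 2 := by
    unfold nsq
    calc ∑ i, ‖z i‖ ^ 2 ≤ ∑ _i : Fin N, ‖z‖ ^ 2 :=
          Finset.sum_le_sum fun i _ => by
            have := norm_le_pi_norm z i
            gcongr
      _ = N * ‖z‖ ^ 2 := by
        rw [Finset.sum_const, Finset.card_univ, Fintype.card_fin, nsmul_eq_mul]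
  calc B / ‖z‖ ^ 2 * N * (2 * nsq z * EE z v)
      ≤ B / ‖z‖ ^ 2 * N * (2 * (N * ‖z‖ ^ 2) * EE z v) := by gcongr
    _ = 2 * B * N ^ 2 * EE z v := by field_simp
    _ ≤ (2 * B * N ^ 2 + 1) * EE z v := by nlinarith

theorem pf_L6 (hL2 : T_L2) (hW9 : T_W9) (hW8 : T_W8) : T_L6 := by
  intro N
  have hell : ∀ z : Fin N → ℂ, z ≠ 0 → ∀ v, fm v (hessR ell z) = (EE z v : ℂ) :=
    fun z hz v => ((hW9 (Fin N)).2 z hz).2.2.2.2 v
  have hcd : ∀ {u : (Fin N → ℂ) → ℝ}, ContDiffOn ℝ ∞ u {0}ᶜ → ∀ {z : Fin N → ℂ}, z ≠ 0 →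
      (hessR u z).IsHermitian := by
    intro u hu z hz
    refine (hW8 (Fin N) u z).2 ?_
    have h1 : ContDiffAt ℝ ∞ u z := hu.contDiffAt (isOpen_compl_singleton.mem_nhds hz)
    exact h1.of_le (by
      have h3 : ((2 : ℕ∞) : WithTop ℕ∞) ≤ ((⊤ : ℕ∞) : WithTop ℕ∞) := WithTop.coe_le_coe.2 le_top
      exact h3)
  refine ⟨?_, ?_, ?_⟩
  · intro φ hφ hh
    have hsph : (Metric.sphere (0 : Fin N → ℂ) 1) ⊆ ({0}ᶜ : Set (Fin N → ℂ)) := by
      intro z hz hz0
      rw [Set.mem_singleton_iff.1 hz0, mem_sphere_zero_iff_norm, norm_zero] at hz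
      exact zero_ne_one hz
    obtain ⟨B, hB⟩ := (isCompact_sphere (0 : Fin N → ℂ) 1).exists_bound_of_continuousOn
      (hφ.mono hsph)
    refine ⟨max B 1, lt_max_of_lt_right one_pos, fun z hz => ?_⟩
    have hr : 0 < ‖z‖ := norm_pos_iff.2 hz
    have h1 := hh ‖z‖⁻¹ z (inv_pos.2 hr) hz
    rw [← h1]
    refine le_trans ?_ (le_max_left _ _)
    refine hB _ ?_
    rw [mem_sphere_zero_iff_norm, norm_smul, Complex.norm_real,
      Real.norm_of_nonneg (inv_pos.2 hr).le, inv_mul_cancel₀ hr.ne']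
  · intro u hu
    have hLH : LH 1 u := ⟨hu.smooth, fun l z hl hz => by rw [hu.loghom l z hl hz, one_mul]⟩
    obtain ⟨C, hC0, hC⟩ := gen hL2 1 u hLH
    refine ⟨C, hC0, fun z hz => ?_⟩
    have h1 := psd_of (hcd (hW9 (Fin N)).1 hz) (hcd hu.smooth hz) (EE z)
      (fun v => EE_nonneg z v hz) (hell z hz) C C (-1) (hC z hz) (by simp)
    have h2 : (C : ℂ) • hessR ell z + ((-1 : ℝ) : ℂ) • hessR u z =
        (C : ℂ) • hessR ell z - hessR u z := by
      push_cast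
      rw [neg_smul, one_smul, sub_eq_add_neg]
    rwa [h2] at h1
  · intro φ hφ
    have hLH : LH 0 φ := ⟨hφ.smooth, fun l z hl hz => by rw [hφ.hom l z hl hz]; ring⟩
    obtain ⟨C, hC0, hC⟩ := gen hL2 0 φ hLH
    refine ⟨C, hC0, ?_⟩
    have hfun : (fun z : Fin N → ℂ => ell z + φ z / C) = fun z => 1 * ell z + 1 / C * φ z := by
      funext z
      ring
    refine ⟨(hW9 (Fin N)).1.add (hφ.smooth.div_const C), ?_, ?_⟩
    · intro l z hl hz
      rw [ell_smul l z hl hz, hφ.hom l z hl hz]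
      ring
    · intro z hz
      rw [hfun, hessR_lin ell φ 1 (1 / C) z hz (hW9 (Fin N)).1 hφ.smooth]
      refine psd_of (hcd (hW9 (Fin N)).1 hz) (hcd hφ.smooth hz) (EE z)
        (fun v => EE_nonneg z v hz) (hell z hz) C 1 (1 / C) (hC z hz) ?_
      rw [abs_of_pos (by positivity), one_div_mul_cancel hC0.ne']

end Pool.Agent.H60.EQD
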